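import Pool.Agent.Lib.MP_6b2d39_agVw.RowsW
import Pool.Agent.Lib.MP_6b2d39_agVw.OmW
import Pool.Agent.Lib.MP_6b2d39_agVn.CurE
import Pool.Agent.Lib.MP_6b2d39_agUv.EndV
import Pool.Agent.Lib.MP_6b2d39_agUn.EmpT

/-!
Light points kill the system `a` outside of the window.

PROOF. `om_w`, `exists_cur`, `d = 3 • c`, `Q = pr d d ≥ 8` (`9 pr c c ≥ 9`; see `exists_cur`), `z = (2 pr a d + sg d - pr d d) / 2` (the parity:
`2 ∣ pr d d + sg d`, from `om_chi`), `z ≤ pr a d`, `2 * 257 * z ≥ 2 * 256 * pr a d` or so, hence `pr a a ≤ 8200 M z` and `64 M z ≤ pr a a`.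
`rows_w`; the numbers `AbV M z Q X W`: `128 M Q ≤ z` from (i) of `om_w` and `hz`; `80 M X ≤ z`; `2 M ^ 2 / z ≤ 16400 M ^ 3 / pr a a + 1`;
`min z (M ^ 2) ≤ z ≤ pr a a / M`. `ar_negV`, `ar_posV` give `Cert`; `EmpP (dgm r T) l J` as in `emp_cert` of `Un/EmpT.lean`
(`empP_of_cert_up` with `c = 0`); `diagram` as in `core_one` (`Vn/CoreV.lean`).
`ms m J` and `mass m J` are the same sum up to casts.
-/

open Polynomial

set_option autoImplicit false

namespace Pool.Agent.Lib.MP_6b2d39_agVw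

open Pool.Agent.Lib.MP_6b2d39_ag Pool.Agent.Lib.MP_6b2d39_agHal Pool.Agent.Lib.MP_6b2d39_agVn
  Pool.Agent.Lib.MP_6b2d39_agUn Pool.Agent.Lib.MP_6b2d39_agUv Pool.Agent.Lib.MP_6b2d39_agArr
  Pool.Agent.Lib.MP_6b2d39_agNw Pool.Agent.Lib.MP_6b2d39_agWin

/-- numbers for the window of the system `a` -/
structure NwW (M : ℕ) (a : Fin 10 → ℕ) (X W : ℕ) : Prop where
  hM : 1 ≤ M
  hs : 1 ≤ sg a
  hcase : (∃ i, i ≠ 1 ∧ i ≠ 9 ∧ 400 * M ≤ a i) ∨ (400 * M ≤ a 1 ∧ 400 * M ≤ a 9)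
  hX : 13 * Real.log (3 * M) + 16 ≤ X
  hzX : 700000 * M ^ 2 * X ≤ pr a a
  hW1 : 10 ^ 14 * (16400 * M ^ 3 / pr a a + 3) ^ 2 * X ^ 3 ≤ W
  hW2 : 10 ^ 8 * M * X ≤ W
  hW3 : 10 ^ 21 * (pr a a / M) ^ 3 ≤ W ^ 4
  hW4 : W ≤ 7 * M ^ 2

private theorem certW_ms {ι : Type} (l : ι → ℕ) (J : Finset ι) :
    ms l J = ((mass l J : ℕ) : ℤ) := by
  unfold ms mass
  push_cast
  refine Finset.sum_congr rfl fun i _ => ?_
  rw [Nat.choose_two_right, Nat.add_sub_cancel, Nat.mul_comm (l i + 1) (l i)]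
  push_cast
  rfl

private theorem certW_emp {ι : Type} [Fintype ι] [DecidableEq ι] {L : ℕ} {μ : ι → ℕ} {r : ℕ → ℕ}
    {J : Finset ι} (h : Cert μ J L (fun b => (r b : ℤ))) : EmpP (dgm r L) μ J := by
  refine empP_of_cert_up (c := 0) h (fun b _ => ?_) (fun p hp => ?_)
  · rw [zero_add]
    have hsub : rowOf (dgm r L) b ⊆ Finset.range (r b) := by
      intro a ha
      unfold rowOf at ha
      rw [Finset.mem_image] at ha
      obtain ⟨p, hp, rfl⟩ := ha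
      rw [Finset.mem_filter, mem_dgm] at hp
      rw [Finset.mem_range, ← hp.2]
      exact hp.1.2
    have hc := Finset.card_le_card hsub
    rw [Finset.card_range] at hc
    exact_mod_cast hc
  · rw [mem_dgm] at hp
    exact ⟨Nat.zero_le _, by rw [zero_add]; exact hp.1⟩

/-- the curve, its rows and the numbers -/
private theorem certW_setup {M X W : ℕ} {a : Fin 10 → ℕ} (hN : NwW M a X W) :
    ∃ (d : Fin 10 → ℕ) (t : Fin 9 → ℂ) (w : ℂ) (G : ℂ[X][X]) (z T : ℕ) (r : ℕ → ℕ),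
      Cur d t w G ∧ AbV M z (pr d d) X W ∧ RwA M z (pr d d) T (fun b => (r b : ℤ)) ∧
      (∀ b < T, Module.finrank ℂ (quo G b (Sp (dg a + 1) (fun i => gam (t i)) (mu a))) ≤
        r b + Module.finrank ℂ (quo G (b + 1) (Sp (dg a + 1) (fun i => gam (t i)) (mu a)))) ∧
      (∀ F : ℂ[X][X], G ^ T * F ∈ Sp (dg a + 1) (fun i => gam (t i)) (mu a) → F = 0) ∧
      ∑ b ∈ Finset.range T, r b + ∑ i, (mu a i + 1).choose 2 = (dg a + 2).choose 2 := by
  obtain ⟨c, a', h9, h1, ha, hs', hi, hii, hiii, hiv⟩ := om_w hN.hM hN.hs hN.hcase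
  obtain ⟨t, w, G, hG⟩ := exists_cur h9 h1
  have hM := hN.hM
  set d : Fin 10 → ℕ := 3 • c with hd
  -- the slope
  have hQ9 : pr d d = 9 * pr c c := by
    rw [hd, pr_smul, pr_symm, pr_smul]
    ring
  have hdim := hG.dim
  have hQ : 8 ≤ pr d d := by omega
  have hsg : sg d = 3 * sg c := by rw [hd, sg_smul]
  have hpos := hG.pos
  have h2 : 2 ≤ sg d := by omega
  -- the first row
  have hchi := om_chi d
  set Q : ℕ := pr d d with hQd
  set s : ℕ := sg d with hsd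
  set P : ℕ := pr a d with hPd
  have hQP : Q ≤ 2 * P := by
    have h3 : 1 * Q ≤ (256 * M + 1) * Q := Nat.mul_le_mul_right Q (by omega)
    omega
  obtain ⟨z, hz⟩ : ∃ z, 2 * z + Q = 2 * P + s := by
    refine ⟨(2 * P + s - Q) / 2, ?_⟩
    omega
  have hzP : z ≤ P := by omega
  have hz1 : 128 * M * Q ≤ z := by
    have h3 : (256 * M + 1) * Q = 2 * (128 * M * Q) + Q := by ring
    omega
  have hbig : 64 * M * z ≤ pr a a := le_trans (Nat.mul_le_mul_left _ hzP) hiii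
  -- `257 z` against `256 P`
  have hPz : 256 * P ≤ 257 * z := by
    have h3 : 257 * Q ≤ (256 * M + 1) * Q := Nat.mul_le_mul_right Q (by omega)
    omega
  have hM1 : 1 ≤ M * M := Nat.mul_pos hM hM
  have hzpos : 1 ≤ z := by
    have : 0 < 128 * M * Q := by positivity
    omega
  have hup : pr a a ≤ 8200 * M * z := by
    have h3 : 256 * (8134 * M * P) ≤ 256 * (8200 * M * z) := by
      have h4 : 256 * (8134 * M * P) = 8134 * M * (256 * P) := by ring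
      rw [h4]
      calc 8134 * M * (256 * P) ≤ 8134 * M * (257 * z) := Nat.mul_le_mul_left _ hPz
        _ = 2090438 * (M * z) := by ring
        _ ≤ 2099200 * (M * z) := Nat.mul_le_mul_right _ (by norm_num)
        _ = 256 * (8200 * M * z) := by ring
    have h5 : 8134 * M * P ≤ 8200 * M * z := Nat.le_of_mul_le_mul_left h3 (by norm_num)
    exact hiv.trans h5
  have hapos : 0 < pr a a := by
    have : 0 < 64 * M * z := by positivity
    omega
  obtain ⟨T, r, hr1, hr2, hr3, hr4⟩ := rows_w hG h2 hM ha hs' hz hbig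
  refine ⟨d, t, w, G, z, T, r, hG, ?_, hr1, hr2, hr3, hr4⟩
  refine ⟨hM, hQ, hz1, hN.hX, ?_, ?_, hN.hW2, ?_, hN.hW4⟩
  · -- `80 M X ≤ z`
    have h3 := hN.hzX.trans hup
    have h4 : 8200 * M * (80 * M * X) ≤ 8200 * M * z := by
      calc 8200 * M * (80 * M * X) = 656000 * M ^ 2 * X := by ring
        _ ≤ 700000 * M ^ 2 * X := by gcongr; norm_num
        _ ≤ 8200 * M * z := h3
    exact Nat.le_of_mul_le_mul_left h4 (by positivity)
  · -- the square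
    have h3 : 2 * M ^ 2 / z ≤ 16400 * M ^ 3 / pr a a := by
      rw [Nat.le_div_iff_mul_le hapos]
      have h4 : 2 * M ^ 2 / z * z ≤ 2 * M ^ 2 := Nat.div_mul_le_self _ _
      calc 2 * M ^ 2 / z * pr a a ≤ 2 * M ^ 2 / z * (8200 * M * z) := Nat.mul_le_mul_left _ hup
        _ = 8200 * M * (2 * M ^ 2 / z * z) := by ring
        _ ≤ 8200 * M * (2 * M ^ 2) := Nat.mul_le_mul_left _ h4
        _ = 16400 * M ^ 3 := by ring
    calc 10 ^ 14 * (2 * M ^ 2 / z + 2) ^ 2 * X ^ 3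
        ≤ 10 ^ 14 * (16400 * M ^ 3 / pr a a + 3) ^ 2 * X ^ 3 := by gcongr; omega
      _ ≤ W := hN.hW1
  · -- the cube
    have h3 : min z (M ^ 2) ≤ pr a a / M := by
      refine (min_le_left _ _).trans ?_
      rw [Nat.le_div_iff_mul_le (by omega)]
      calc z * M = 1 * (M * z) := by ring
        _ ≤ 64 * (M * z) := Nat.mul_le_mul_right _ (by norm_num)
        _ = 64 * M * z := by ring
        _ ≤ pr a a := hbig
    calc 10 ^ 21 * min z (M ^ 2) ^ 3 ≤ 10 ^ 21 * (pr a a / M) ^ 3 := by gcongr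
      _ ≤ W ^ 4 := hN.hW3

theorem cert_neg {M X W : ℕ} {a : Fin 10 → ℕ} (hN : NwW M a X W) {ι : Type} [Fintype ι]
    [DecidableEq ι] {l : ι → ℕ} {J : Finset ι} (hJ : ∀ j ∈ J, l j ≤ M)
    (h1 : (dg a + 2).choose 2 + W ≤ ∑ i, (mu a i + 1).choose 2 + mass l J)
    (h2 : ∑ i, (mu a i + 1).choose 2 + mass l J ≤ (dg a + 2).choose 2 + (W + M)) :
    ∃ (p : Fin 9 → ℂ × ℂ) (x y : ι → ℂ), ∀ F ∈ Sp (dg a + 1) p (mu a),
      (∀ i ∈ J, Cond (Finset.Icc 1 (l i)) (x i) (y i) F) → F = 0 := by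
  obtain ⟨d, t, w, G, z, T, r, hG, hA, hR, hr2, hr3, hr4⟩ := certW_setup hN
  have hms := certW_ms l J
  have hC : Cert l J T (fun b => (r b : ℤ)) := by
    refine ar_negV hA hR hJ
      (v0 := ((∑ b ∈ Finset.range T, r b : ℕ) : ℤ) - ((mass l J : ℕ) : ℤ)) ?_ ?_ ?_
    · rw [hms]
      push_cast
      ring
    · have h3 : ∑ b ∈ Finset.range T, r b + W ≤ mass l J := by omega
      have h4 : ((∑ b ∈ Finset.range T, r b : ℕ) : ℤ) + W ≤ ((mass l J : ℕ) : ℤ) := by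
        exact_mod_cast h3
      linarith
    · have h3 : mass l J ≤ ∑ b ∈ Finset.range T, r b + (W + M) := by omega
      have h4 : ((mass l J : ℕ) : ℤ) ≤ ((∑ b ∈ Finset.range T, r b : ℕ) : ℤ) + (W + M) := by
        exact_mod_cast h3
      linarith
  obtain ⟨x', y', hxy⟩ := diagram (f := G) hG.irr hG.natDegree hG.dep
    (W := Sp (dg a + 1) (fun i => gam (t i)) (mu a)) (n := T) (r := r) hr2 hr3 (certW_emp hC)
  exact ⟨fun i => gam (t i), x', y', hxy⟩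

theorem cert_pos {M X W : ℕ} {a : Fin 10 → ℕ} (hN : NwW M a X W) {ι : Type} [Fintype ι]
    [DecidableEq ι] {l : ι → ℕ} {J Z : Finset ι} (hJZ : Disjoint J Z) (hJ : ∀ j ∈ J, l j ≤ M)
    (hZ : ∀ j ∈ Z, l j = 1)
    (hmass : (dg a + 2).choose 2 = ∑ i, (mu a i + 1).choose 2 + mass l J + Z.card)
    (h1 : W ≤ Z.card) (h2 : Z.card ≤ W + M ^ 2) :
    ∃ (p : Fin 9 → ℂ × ℂ) (x y : ι → ℂ), ∀ F ∈ Sp (dg a + 1) p (mu a),
      (∀ i ∈ J ∪ Z, Cond (Finset.Icc 1 (l i)) (x i) (y i) F) → F = 0 := by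
  obtain ⟨d, t, w, G, z, T, r, hG, hA, hR, hr2, hr3, hr4⟩ := certW_setup hN
  have hms := certW_ms l J
  have hC : Cert l (J ∪ Z) T (fun b => (r b : ℤ)) := by
    refine ar_posV hA hR hJZ hJ hZ ?_ h1 h2
    rw [hms]
    have h3 : ∑ b ∈ Finset.range T, r b = Z.card + mass l J := by omega
    exact_mod_cast h3
  obtain ⟨x', y', hxy⟩ := diagram (f := G) hG.irr hG.natDegree hG.dep
    (W := Sp (dg a + 1) (fun i => gam (t i)) (mu a)) (n := T) (r := r) hr2 hr3 (certW_emp hC)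
  exact ⟨fun i => gam (t i), x', y', hxy⟩

end Pool.Agent.Lib.MP_6b2d39_agVw
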