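import Pool.Agent.Lib.MP_6b2d39_agHal.Dia

/-!
The Hopf inequality for products of two systems modulo an irreducible curve.

PROOF. `exists_germ` for the two systems: at a general point of the curve the orders of the elements of a system which are not
divisible by `f` are `0, 1, …, dimension - 1`; the orders of the products are all numbers up to the sum.
-/

open Polynomial

set_option autoImplicit false

namespace Pool.Agent.Lib.MP_6b2d39_agVw

open Pool.Agent.Lib.MP_6b2d39_ag Pool.Agent.Lib.MP_6b2d39_agHal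

private theorem hg_rank {K M N : Type} [Field K] [AddCommGroup M] [Module K M] [AddCommGroup N]
    [Module K N] (V : Submodule K M) [FiniteDimensional K V] (ρ : M →ₗ[K] N) :
    Module.finrank K (V.map ρ) + Module.finrank K (V ⊓ LinearMap.ker ρ : Submodule K M) =
      Module.finrank K V := by
  have h1 := LinearMap.finrank_range_add_finrank_ker (ρ.comp V.subtype)
  rw [LinearMap.range_comp, Submodule.range_subtype] at h1
  rw [← h1, LinearMap.ker_comp, ← Submodule.finrank_map_subtype_eq V (Submodule.comap _ _),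
    Submodule.map_comap_subtype]

/-- elements of different orders are independent modulo the curve -/
private theorem hg_count {f : ℂ[X][X]} {x₀ : ℂ} {φ : ℂ[X]} {L K : ℕ} (hbr : X ^ L ∣ br x₀ φ f)
    (hKL : K ≤ L) {U : Submodule ℂ ℂ[X][X]} [FiniteDimensional ℂ U]
    (h : ∀ a < K, ∃ F ∈ U, (∀ i < a, (br x₀ φ F).coeff i = 0) ∧ (br x₀ φ F).coeff a ≠ 0) :
    Module.finrank ℂ ↥(U ⊓ mulF f) + K ≤ Module.finrank ℂ U := by
  classical
  choose F hFU hF0 hF1 using h
  -- the coefficients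
  let ψ : ℂ[X][X] →ₗ[ℂ] (Fin K → ℂ) := LinearMap.pi fun i : Fin K =>
    (lcoeff ℂ (i : ℕ)).comp (br x₀ φ).toLinearMap
  have hψ : ∀ (G : ℂ[X][X]) (i : Fin K), ψ G i = (br x₀ φ G).coeff i := fun G i => rfl
  let M : Matrix (Fin K) (Fin K) ℂ := Matrix.of fun a i => (br x₀ φ (F a a.2)).coeff i
  have htri : M.BlockTriangular id := by
    intro a i hi
    exact hF0 a a.2 i hi
  have hdet : M.det ≠ 0 := by
    rw [Matrix.det_of_isUpperTriangular htri]
    exact Finset.prod_ne_zero_iff.2 fun a _ => hF1 a a.2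
  have hli : LinearIndependent ℂ (fun a : Fin K => ψ (F a a.2)) := by
    have h1 := Matrix.linearIndependent_rows_of_det_ne_zero hdet
    exact h1
  have hrange : K ≤ Module.finrank ℂ (U.map ψ) := by
    have hli' : LinearIndependent ℂ (fun a : Fin K =>
        (⟨ψ (F a a.2), Submodule.mem_map_of_mem (hFU a a.2)⟩ : U.map ψ)) := by
      apply LinearIndependent.of_comp (U.map ψ).subtype
      exact hli
    have := hli'.fintype_card_le_finrank
    rwa [Fintype.card_fin] at this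
  have hrk := hg_rank U ψ
  have hle : U ⊓ mulF f ≤ U ⊓ LinearMap.ker ψ := by
    rintro G ⟨hG, hGf⟩
    refine ⟨hG, ?_⟩
    rw [SetLike.mem_coe, LinearMap.mem_ker]
    funext i
    rw [hψ]
    obtain ⟨H, rfl⟩ := mem_mulF.1 hGf
    have h1 : X ^ L ∣ br x₀ φ (f * H) := by
      rw [map_mul]
      exact dvd_mul_of_dvd_left hbr _
    exact X_pow_dvd_iff.1 h1 i (lt_of_lt_of_le i.2 hKL)
  have hle' : Module.finrank ℂ ↥(U ⊓ mulF f) ≤ Module.finrank ℂ ↥(U ⊓ LinearMap.ker ψ) := by
    have : FiniteDimensional ℂ ↥(U ⊓ LinearMap.ker ψ) :=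
      Submodule.finiteDimensional_of_le inf_le_left
    exact Submodule.finrank_mono hle
  omega

private theorem hg_ord {G H : ℂ[X]} {a b : ℕ} (hG : ∀ i < a, G.coeff i = 0) (hG1 : G.coeff a ≠ 0)
    (hH : ∀ i < b, H.coeff i = 0) (hH1 : H.coeff b ≠ 0) :
    (∀ i < a + b, (G * H).coeff i = 0) ∧ (G * H).coeff (a + b) ≠ 0 := by
  obtain ⟨G', rfl⟩ := X_pow_dvd_iff.2 hG
  obtain ⟨H', rfl⟩ := X_pow_dvd_iff.2 hH
  have h1 : G'.coeff 0 ≠ 0 := by
    have := hG1
    rwa [coeff_X_pow_mul', if_pos le_rfl, Nat.sub_self] at this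
  have h2 : H'.coeff 0 ≠ 0 := by
    have := hH1
    rwa [coeff_X_pow_mul', if_pos le_rfl, Nat.sub_self] at this
  have h3 : X ^ a * G' * (X ^ b * H') = X ^ (a + b) * (G' * H') := by
    rw [pow_add]
    ring
  rw [h3]
  refine ⟨fun i hi => ?_, ?_⟩
  · rw [coeff_X_pow_mul', if_neg (by omega)]
  · rw [coeff_X_pow_mul', if_pos le_rfl, Nat.sub_self, mul_coeff_zero]
    exact mul_ne_zero h1 h2

theorem hopf_gen {f : ℂ[X][X]} (hf : Irreducible f) (h1 : f.natDegree ≠ 0)
    (h2 : ∃ i, (f.coeff i).natDegree ≠ 0) {B V U : Submodule ℂ ℂ[X][X]}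
    [FiniteDimensional ℂ B] [FiniteDimensional ℂ V] [FiniteDimensional ℂ U]
    (hmul : ∀ F ∈ B, ∀ H ∈ V, F * H ∈ U)
    (hB : Module.finrank ℂ ↥(B ⊓ mulF f) < Module.finrank ℂ B)
    (hV : Module.finrank ℂ ↥(V ⊓ mulF f) < Module.finrank ℂ V) :
    Module.finrank ℂ B + Module.finrank ℂ V + Module.finrank ℂ ↥(U ⊓ mulF f) ≤
      Module.finrank ℂ U + Module.finrank ℂ ↥(B ⊓ mulF f) +
        Module.finrank ℂ ↥(V ⊓ mulF f) + 1 := by
  let W : ℕ → Submodule ℂ ℂ[X][X] := fun b => if b = 0 then B else V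
  have hW : ∀ b, FiniteDimensional ℂ (W b) := by
    intro b
    by_cases hb : b = 0
    · have h3 : W b = B := if_pos hb
      rw [h3]
      infer_instance
    · have h3 : W b = V := if_neg hb
      rw [h3]
      infer_instance
  obtain ⟨x₀, φ, hbr, -, hg⟩ := exists_germ hf h1 h2 2 W
    (Module.finrank ℂ B + Module.finrank ℂ V) (fun b hb => by
      interval_cases b
      · change Module.finrank ℂ B ≤ _
        omega
      · change Module.finrank ℂ V ≤ _
        omega)
  have hgB : ∀ a, a + Module.finrank ℂ ↥(B ⊓ mulF f) < Module.finrank ℂ B →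
      ∃ h ∈ B, (∀ i < a, (br x₀ φ h).coeff i = 0) ∧ (br x₀ φ h).coeff a ≠ 0 :=
    hg 0 (by norm_num)
  have hgV : ∀ a, a + Module.finrank ℂ ↥(V ⊓ mulF f) < Module.finrank ℂ V →
      ∃ h ∈ V, (∀ i < a, (br x₀ φ h).coeff i = 0) ∧ (br x₀ φ h).coeff a ≠ 0 :=
    hg 1 (by norm_num)
  have key := hg_count (K := Module.finrank ℂ B - Module.finrank ℂ ↥(B ⊓ mulF f) +
    (Module.finrank ℂ V - Module.finrank ℂ ↥(V ⊓ mulF f)) - 1) hbr (by omega) (U := U) (by
      intro c hc
      obtain ⟨a, b, hab, ha, hb⟩ : ∃ a b, a + b = c ∧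
          a + Module.finrank ℂ ↥(B ⊓ mulF f) < Module.finrank ℂ B ∧
          b + Module.finrank ℂ ↥(V ⊓ mulF f) < Module.finrank ℂ V := by
        rcases Nat.lt_or_ge (c + Module.finrank ℂ ↥(B ⊓ mulF f)) (Module.finrank ℂ B) with h3 | h3
        · exact ⟨c, 0, by omega, h3, by omega⟩
        · exact ⟨Module.finrank ℂ B - Module.finrank ℂ ↥(B ⊓ mulF f) - 1,
            c - (Module.finrank ℂ B - Module.finrank ℂ ↥(B ⊓ mulF f) - 1), by omega, by omega,
            by omega⟩
      obtain ⟨F, hFB, hF0, hF1⟩ := hgB a ha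
      obtain ⟨H, hHV, hH0, hH1⟩ := hgV b hb
      refine ⟨F * H, hmul F hFB H hHV, ?_⟩
      rw [map_mul, ← hab]
      exact hg_ord hF0 hF1 hH0 hH1)
  omega

end Pool.Agent.Lib.MP_6b2d39_agVw
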