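import Pool.Agent.Lib.MP_6b2d39_agVw.NineW
import Pool.Agent.Lib.MP_6b2d39_agVn.MainV
import Pool.Agent.Lib.MP_6b2d39_agRef.AllR

/-!
The theorem for all systems: exactness for `A ≥ 4000000 μ ^ 3`, the window `(-15 μ ^ 2, 7 μ ^ 2)`, and the small window away from
the boundary.

PROOF. As `main_v`, with `nine_v`, `window_ten` and `nine_w` (`hh_main`, `hbad`).
-/

open Polynomial

set_option autoImplicit false

namespace Pool.Agent.Lib.MP_6b2d39_agVw

open Pool.Agent.Lib.MP_6b2d39_ag Pool.Agent.Lib.MP_6b2d39_agHal Pool.Agent.Lib.MP_6b2d39_agVn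
  Pool.Agent.Lib.MP_6b2d39_agUn Pool.Agent.Lib.MP_6b2d39_agCr

/-- the nine largest multiplicities of a sorted system -/
private theorem mainW_set {h e : ℕ} {n : Fin h → ℕ} (hred : Reduced e n) (h9 : 9 < h)
    (σ : Equiv.Perm (Fin h)) (hσ : Antitone fun i => n (σ i)) (i0 i9 : Fin h)
    (h0 : (i0 : ℕ) = 0) (hi9 : (i9 : ℕ) = 9) :
    ∃ (S : Finset (Fin h)) (A : ℕ), S.card = 9 ∧ (∀ j, j ∉ S → n j ≤ n (σ i9)) ∧
      (∀ j ∈ S, n j ≤ n (σ i0)) ∧ e ^ 2 = ∑ i ∈ S, n i ^ 2 + A ∧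
      ∑ i : Fin h, (if (i : ℕ) < 9 then n (σ i) ^ 2 else 0) = ∑ i ∈ S, n i ^ 2 ∧
      ∑ i : Fin h, (if (i : ℕ) < 9 then n (σ i) else 0) = ∑ i ∈ S, n i := by
  have h9' : 9 ≤ h := h9.le
  have hmap : (Finset.univ.filter fun i : Fin h => (i : ℕ) < 9) =
      Finset.univ.map (Fin.castLEEmb h9') := by
    ext i
    rw [Finset.mem_filter, Finset.mem_map]
    constructor
    · rintro ⟨-, h1⟩
      exact ⟨⟨i, h1⟩, Finset.mem_univ _, Fin.ext rfl⟩
    · rintro ⟨j, -, rfl⟩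
      exact ⟨Finset.mem_univ _, j.2⟩
  have hsum : ∀ g : Fin h → ℕ, ∑ i : Fin h, (if (i : ℕ) < 9 then g (σ i) else 0) =
      ∑ i : Fin 9, g (σ (Fin.castLE h9' i)) := by
    intro g
    rw [← Finset.sum_filter, hmap, Finset.sum_map]
    rfl
  have hS : ∀ g : Fin h → ℕ,
      ∑ i ∈ Finset.univ.map ((Fin.castLEEmb h9').trans σ.toEmbedding), g i =
        ∑ i : Fin 9, g (σ (Fin.castLE h9' i)) := by
    intro g
    rw [Finset.sum_map]
    rfl
  obtain ⟨m, hm⟩ : ∃ m : Fin 9 → ℕ, m = fun i => n (σ (Fin.castLE h9' i)) := ⟨_, rfl⟩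
  have hmA : Antitone m := by
    rw [hm]
    intro i j hij
    exact hσ (show Fin.castLE h9' i ≤ Fin.castLE h9' j from hij)
  have hr : m 0 + m 1 + m 2 ≤ e := by
    have h1 := hred ⟨![σ ⟨0, by omega⟩, σ ⟨1, by omega⟩, σ ⟨2, by omega⟩], by
      intro a b hab
      fin_cases a <;> fin_cases b <;> simp_all [Fin.ext_iff]⟩
    rw [Fin.sum_univ_three] at h1
    rw [hm]
    exact h1
  obtain ⟨a, ha1, ha2⟩ := exists_coord hmA hr
  have hp := pr_eq a a
  rw [← ha1, ← ha2] at hp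
  refine ⟨Finset.univ.map ((Fin.castLEEmb h9').trans σ.toEmbedding), pr a a, ?_, ?_, ?_, ?_, ?_, ?_⟩
  · rw [Finset.card_map, Finset.card_univ, Fintype.card_fin]
  · intro j hj
    have h1 : 9 ≤ ((σ.symm j : Fin h) : ℕ) := by
      by_contra hcon
      apply hj
      rw [Finset.mem_map]
      refine ⟨⟨(σ.symm j : Fin h), by omega⟩, Finset.mem_univ _, ?_⟩
      exact σ.apply_symm_apply j
    have h2 : n (σ (σ.symm j)) ≤ n (σ i9) := hσ (Fin.le_def.2 (by rw [hi9]; exact h1))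
    rwa [σ.apply_symm_apply] at h2
  · intro j hj
    rw [Finset.mem_map] at hj
    obtain ⟨i, -, rfl⟩ := hj
    exact hσ (Fin.le_def.2 (by rw [h0]; exact Nat.zero_le _))
  · rw [hS (fun i => n i ^ 2), pow_two, hp, hm]
    congr 1
    exact Finset.sum_congr rfl fun i _ => (pow_two _).symm
  · rw [hS (fun i => n i ^ 2)]
    exact hsum (fun i => n i ^ 2)
  · rw [hS n]
    exact hsum n

/-- positive multiplicities lie in the set of the nine largest ones, if the tenth one is small -/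
private theorem mainW_card {h : ℕ} {n : Fin h → ℕ} {S : Finset (Fin h)} {M : ℕ}
    (hS : S.card = 9) (hSM : ∀ j, j ∉ S → n j ≤ M) :
    (Finset.univ.filter (fun i => M < n i)).card ≤ 9 := by
  rw [← hS]
  refine Finset.card_le_card fun i hi => ?_
  rw [Finset.mem_filter] at hi
  by_contra hcon
  have := hSM i hcon
  omega

theorem main_w : ∃ C : ℝ, ∀ (h : ℕ) (d : ℕ) (m : Fin h → ℕ), 3 ≤ h →
    General (fun P => IsSpecial d m P ↔ IsMinusOneSpecial d m P) ∨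
      ∃ (e : ℕ) (n : Fin h → ℕ), Relation.ReflTransGen CremonaStep (d, m) (e, n) ∧
        (∀ i, n i ≤ m i) ∧ Reduced e n ∧ General (fun P => IsSpecial e n P) ∧
        ∀ σ : Equiv.Perm (Fin h), Antitone (fun i => n (σ i)) →
          ∃ (i0 i9 : Fin h) (A μ : ℕ), (i0 : ℕ) = 0 ∧ (i9 : ℕ) = 9 ∧ μ = n (σ i9) ∧ 1 ≤ μ ∧
            e ^ 2 = ∑ i : Fin h, (if (i : ℕ) < 9 then n (σ i) ^ 2 else 0) + A ∧
            A < 4000000 * μ ^ 3 ∧
            -(15 * (μ : ℤ) ^ 2) < vd e n ∧ vd e n < 7 * (μ : ℤ) ^ 2 ∧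
            (C * μ + ((∑ i : Fin h, (if (i : ℕ) < 9 then n (σ i) else 0) : ℕ) : ℝ) ≤ 3 * e →
              C * μ + n (σ i0) ≤ e →
              |((vd e n : ℤ) : ℝ)| <
                C * ((μ : ℝ) ^ 6 / (A : ℝ) ^ 2 + μ + ((A : ℝ) / μ) ^ (3 / 4 : ℝ)) *
                  Real.log (μ + 2) ^ 3) := by
  obtain ⟨C, hC, hW⟩ := nine_w
  refine ⟨C, fun h d m hh => ?_⟩
  rcases hh_main hh d m with h1 | ⟨e, n, hr, hred, hbad⟩
  · exact Or.inl h1
  refine Or.inr ⟨e, n, hr, fun i => le_of_reach hr i, hred, MP_6b2d39_agWin.general_special_of_bad hbad,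
    fun σ hσ => ?_⟩
  have h9 : 9 < h := by
    by_contra hcon
    apply hbad
    apply MP_6b2d39_agNw.nonspecial_nine hh hred
    calc (Finset.univ.filter (fun i => 0 < n i)).card ≤ (Finset.univ : Finset (Fin h)).card :=
          Finset.card_filter_le _ _
      _ = h := by rw [Finset.card_univ, Fintype.card_fin]
      _ ≤ 9 := by omega
  obtain ⟨i0, hi0⟩ : ∃ i : Fin h, (i : ℕ) = 0 := ⟨⟨0, by omega⟩, rfl⟩
  obtain ⟨i9, hi9⟩ : ∃ i : Fin h, (i : ℕ) = 9 := ⟨⟨9, h9⟩, rfl⟩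
  obtain ⟨S, A, hS, hSM, hS0, hA, hs2, hs1⟩ := mainW_set hred h9 σ hσ i0 i9 hi0 hi9
  have hμ : 1 ≤ n (σ i9) := by
    by_contra hcon
    have h0 : n (σ i9) = 0 := by omega
    apply hbad
    apply MP_6b2d39_agNw.nonspecial_nine hh hred
    exact mainW_card hS fun j hj => (hSM j hj).trans (le_of_eq h0)
  have hc := mainW_card hS hSM
  refine ⟨i0, i9, A, n (σ i9), hi0, hi9, rfl, hμ, ?_, ?_, ?_, ?_, ?_⟩
  · rw [hs2]
    exact hA
  · by_contra hcon
    apply hbad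
    refine nine_v hh hred hμ hS hSM ?_
    rw [hA]
    omega
  · by_contra hcon
    apply hbad
    exact window_ten hh hred hμ hc (Or.inl (by linarith [not_lt.1 hcon]))
  · by_contra hcon
    apply hbad
    exact window_ten hh hred hμ hc (Or.inr (by linarith [not_lt.1 hcon]))
  · intro g1 g2
    by_contra hcon
    apply hbad
    rw [hs1] at g1
    refine hW h e (n (σ i9)) A n S hh hred hμ hS hSM hA g1 (fun i hi => ?_) (not_lt.1 hcon)
    have h1 : (n i : ℝ) ≤ n (σ i0) := by exact_mod_cast hS0 i hi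
    linarith

end Pool.Agent.Lib.MP_6b2d39_agVw
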