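import Mathlib

/-!
Numbers for the window.

PROOF. `X = ⌈13 log (3 M) + 16⌉ ≤ 60 log (M + 2)`, `l = log (M + 2) ≥ 1`. Let `W1 = C1 (M ^ 6 / A ^ 2 + M + (A / M) ^ (3 / 4)) l ^ 3`, `C = 3 C1`,
`C1` large, `W = ⌊W1⌋`. `3 W1 < 15 M ^ 2` gives `W ≤ 5 M ^ 2`. `700000 M ^ 2 X ≤ A`: otherwise `A < 42000000 M ^ 2 l`, `M ^ 6 / A ^ 2 ≥
M ^ 2 / (42000000 l) ^ 2`, so `W1 ≥ C1 M ^ 2 l / 42000000 ^ 2 ≥ 5 M ^ 2`, contradiction. `16400 M ^ 3 / A + 3 ≤ 16400 (M ^ 3 / A) + 3`, its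
square is at most `2 * 16400 ^ 2 M ^ 6 / A ^ 2 + 18`. `(A / M : ℕ) ^ 3 ≤ (A / M) ^ 3 = ((A / M) ^ (3 / 4)) ^ 4`.
-/

set_option autoImplicit false

namespace Pool.Agent.Lib.MP_6b2d39_agVw

private lemma nw_one_le_log {M : ℕ} (hM : 1 ≤ M) : 1 ≤ Real.log ((M : ℝ) + 2) := by
  have h1 : (1 : ℝ) ≤ M := by exact_mod_cast hM
  rw [Real.le_log_iff_exp_le (by linarith)]
  have := Real.exp_one_lt_d9
  linarith

private lemma nw_X {M : ℕ} (hM : 1 ≤ M) :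
    ((⌈13 * Real.log (3 * M) + 16⌉₊ : ℕ) : ℝ) ≤ 60 * Real.log ((M : ℝ) + 2) := by
  have h1 : (1 : ℝ) ≤ M := by exact_mod_cast hM
  have hl := nw_one_le_log hM
  have h2 : Real.log (3 * (M : ℝ)) ≤ 2 * Real.log ((M : ℝ) + 2) := by
    rw [Real.log_mul (by norm_num) (by positivity)]
    have h3 : Real.log 3 ≤ Real.log ((M : ℝ) + 2) := Real.log_le_log (by norm_num) (by linarith)
    have h4 : Real.log (M : ℝ) ≤ Real.log ((M : ℝ) + 2) :=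
      Real.log_le_log (by linarith) (by linarith)
    linarith
  have h0 : 0 ≤ Real.log (3 * (M : ℝ)) := Real.log_nonneg (by linarith)
  have h5 := Nat.ceil_lt_add_one (show 0 ≤ 13 * Real.log (3 * (M : ℝ)) + 16 by linarith)
  linarith

theorem num_w : ∃ C : ℝ, 1 ≤ C ∧ ∀ M A : ℕ, 1 ≤ M → 1 ≤ A →
    C * ((M : ℝ) ^ 6 / (A : ℝ) ^ 2 + M + ((A : ℝ) / M) ^ (3 / 4 : ℝ)) *
      Real.log (M + 2) ^ 3 < 15 * (M : ℝ) ^ 2 →
    ∃ X W : ℕ, 13 * Real.log (3 * M) + 16 ≤ X ∧ 700000 * M ^ 2 * X ≤ A ∧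
      10 ^ 14 * (16400 * M ^ 3 / A + 3) ^ 2 * X ^ 3 ≤ W ∧ 10 ^ 8 * M * X ≤ W ∧
      10 ^ 21 * (A / M) ^ 3 ≤ W ^ 4 ∧ W ≤ 7 * M ^ 2 ∧
      (W : ℝ) ≤ C * ((M : ℝ) ^ 6 / (A : ℝ) ^ 2 + M + ((A : ℝ) / M) ^ (3 / 4 : ℝ)) *
        Real.log (M + 2) ^ 3 := by
  refine ⟨3 * 10 ^ 30, by norm_num, ?_⟩
  intro M A hM hA hlt
  have hM1 : (1 : ℝ) ≤ M := by exact_mod_cast hM
  have hA1 : (1 : ℝ) ≤ A := by exact_mod_cast hA
  have hl := nw_one_le_log hM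
  have hX := nw_X hM
  set X : ℕ := ⌈13 * Real.log (3 * M) + 16⌉₊ with hXd
  set l : ℝ := Real.log ((M : ℝ) + 2) with hld
  set y : ℝ := ((A : ℝ) / M) ^ (3 / 4 : ℝ) with hyd
  set z : ℝ := (M : ℝ) ^ 6 / (A : ℝ) ^ 2 with hzd
  have hy0 : 0 ≤ y := Real.rpow_nonneg (by positivity) _
  have hz0 : 0 ≤ z := by positivity
  have hX0 : (0 : ℝ) ≤ X := Nat.cast_nonneg _
  have hl3 : 1 ≤ l ^ 3 := one_le_pow₀ hl
  have hl1 : l ≤ l ^ 3 := by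
    calc l = l ^ 1 := (pow_one l).symm
      _ ≤ l ^ 3 := pow_le_pow_right₀ hl (by norm_num)
  set S : ℝ := z + M + y with hSd
  have hS1 : 1 ≤ S := by rw [hSd]; linarith
  have hSz : z ≤ S := by rw [hSd]; linarith
  have hSM : (M : ℝ) ≤ S := by rw [hSd]; linarith
  have hSy : y ≤ S := by rw [hSd]; linarith
  have hSl : 1 ≤ S * l ^ 3 := by nlinarith
  have hSSl : S ≤ S * l ^ 3 := by nlinarith
  set W1 : ℝ := 10 ^ 30 * S * l ^ 3 with hWd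
  have hW10 : 0 ≤ W1 := by rw [hWd]; positivity
  have hW15 : W1 < 5 * (M : ℝ) ^ 2 := by rw [hWd]; nlinarith
  refine ⟨X, ⌊W1⌋₊, Nat.le_ceil _, ?_, ?_, ?_, ?_, ?_, ?_⟩
  · -- the size of `A`
    by_contra hcon
    push Not at hcon
    have h1 : (A : ℝ) < 700000 * (M : ℝ) ^ 2 * X := by exact_mod_cast hcon
    have h2 : (A : ℝ) < 42000000 * (M : ℝ) ^ 2 * l := by
      have : 700000 * (M : ℝ) ^ 2 * X ≤ 700000 * (M : ℝ) ^ 2 * (60 * l) :=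
        mul_le_mul_of_nonneg_left hX (by positivity)
      linarith
    have h3 : (A : ℝ) ^ 2 ≤ (42000000 * (M : ℝ) ^ 2 * l) ^ 2 :=
      pow_le_pow_left₀ (by linarith) h2.le 2
    have h4 : (M : ℝ) ^ 2 ≤ z * (42000000 * l) ^ 2 := by
      have h5 : z * (A : ℝ) ^ 2 = (M : ℝ) ^ 6 := by
        rw [hzd]; field_simp
      have h6 : (M : ℝ) ^ 6 ≤ z * (42000000 * (M : ℝ) ^ 2 * l) ^ 2 := by
        rw [← h5]; exact mul_le_mul_of_nonneg_left h3 hz0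
      have h7 : z * (42000000 * (M : ℝ) ^ 2 * l) ^ 2 =
          (z * (42000000 * l) ^ 2) * (M : ℝ) ^ 4 := by ring
      rw [h7] at h6
      have h8 : (M : ℝ) ^ 6 = (M : ℝ) ^ 2 * (M : ℝ) ^ 4 := by ring
      rw [h8] at h6
      exact le_of_mul_le_mul_right h6 (by positivity)
    have h9 : (M : ℝ) ^ 2 ≤ 42000000 ^ 2 * (S * l ^ 3) := by
      have h10 : z * (42000000 * l) ^ 2 ≤ S * (42000000 * l) ^ 2 :=
        mul_le_mul_of_nonneg_right hSz (by positivity)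
      have h11 : l ^ 2 ≤ l ^ 3 := pow_le_pow_right₀ hl (by norm_num)
      have h12 : S * (42000000 * l) ^ 2 ≤ S * (42000000 ^ 2 * l ^ 3) :=
        mul_le_mul_of_nonneg_left (by nlinarith) (by linarith)
      linarith
    have h13 : W1 = 10 ^ 30 * (S * l ^ 3) := by rw [hWd]; ring
    nlinarith
  · -- the square term
    apply Nat.le_floor
    have h1 : ((16400 * M ^ 3 / A : ℕ) : ℝ) ≤ 16400 * (M : ℝ) ^ 3 / A := by
      have := Nat.cast_div_le (α := ℝ) (m := 16400 * M ^ 3) (n := A)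
      push_cast at this
      exact this
    have h2 : (((16400 * M ^ 3 / A : ℕ) : ℝ) + 3) ^ 2 ≤ 2 * 16400 ^ 2 * z + 18 := by
      have h3 : (((16400 * M ^ 3 / A : ℕ) : ℝ) + 3) ^ 2 ≤ (16400 * (M : ℝ) ^ 3 / A + 3) ^ 2 :=
        pow_le_pow_left₀ (by positivity) (by linarith) 2
      have h4 : (16400 * (M : ℝ) ^ 3 / A) ^ 2 = 16400 ^ 2 * z := by
        rw [hzd]; ring
      nlinarith [sq_nonneg (16400 * (M : ℝ) ^ 3 / A - 3)]
    have h5 : (X : ℝ) ^ 3 ≤ (60 * l) ^ 3 := pow_le_pow_left₀ hX0 hX 3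
    have h6 : 2 * 16400 ^ 2 * z + 18 ≤ (10 : ℝ) ^ 9 * S := by nlinarith
    have e1 : ((10 ^ 14 * (16400 * M ^ 3 / A + 3) ^ 2 * X ^ 3 : ℕ) : ℝ) =
        (10 : ℝ) ^ 14 * (((16400 * M ^ 3 / A : ℕ) : ℝ) + 3) ^ 2 * (X : ℝ) ^ 3 := by
      push_cast; ring
    rw [e1]
    calc (10 : ℝ) ^ 14 * (((16400 * M ^ 3 / A : ℕ) : ℝ) + 3) ^ 2 * (X : ℝ) ^ 3
        ≤ 10 ^ 14 * ((10 : ℝ) ^ 9 * S) * (60 * l) ^ 3 := by
          refine mul_le_mul ?_ h5 (by positivity) (by positivity)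
          exact mul_le_mul_of_nonneg_left (h2.trans h6) (by positivity)
      _ = (216000 * 10 ^ 23) * (S * l ^ 3) := by ring
      _ ≤ 10 ^ 30 * (S * l ^ 3) := mul_le_mul_of_nonneg_right (by norm_num) (by linarith)
      _ = W1 := by rw [hWd]; ring
  · -- the linear term
    apply Nat.le_floor
    have e1 : ((10 ^ 8 * M * X : ℕ) : ℝ) = (10 : ℝ) ^ 8 * M * X := by push_cast; ring
    rw [e1]
    calc (10 : ℝ) ^ 8 * M * X ≤ 10 ^ 8 * S * (60 * l ^ 3) := by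
          refine mul_le_mul ?_ (hX.trans (by linarith)) hX0 (by positivity)
          exact mul_le_mul_of_nonneg_left hSM (by positivity)
      _ = (60 * 10 ^ 8) * (S * l ^ 3) := by ring
      _ ≤ 10 ^ 30 * (S * l ^ 3) := mul_le_mul_of_nonneg_right (by norm_num) (by linarith)
      _ = W1 := by rw [hWd]; ring
  · -- the fourth power
    have h1 : (10 : ℝ) ^ 6 * y ≤ (⌊W1⌋₊ : ℝ) := by
      have h2 := Nat.sub_one_lt_floor W1
      have h3 : W1 = 10 ^ 30 * (S * l ^ 3) := by rw [hWd]; ring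
      nlinarith
    have h4 : ((A / M : ℕ) : ℝ) ≤ (A : ℝ) / M := Nat.cast_div_le
    have h5 : y ^ 4 = ((A : ℝ) / M) ^ 3 := by
      rw [hyd, ← Real.rpow_natCast, ← Real.rpow_mul (by positivity)]
      norm_num
    have h6 : (10 : ℝ) ^ 21 * ((A / M : ℕ) : ℝ) ^ 3 ≤ (⌊W1⌋₊ : ℝ) ^ 4 := by
      calc (10 : ℝ) ^ 21 * ((A / M : ℕ) : ℝ) ^ 3 ≤ 10 ^ 24 * ((A : ℝ) / M) ^ 3 := by
            refine mul_le_mul (by norm_num) (pow_le_pow_left₀ (by positivity) h4 3)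
              (by positivity) (by positivity)
        _ = (10 ^ 6 * y) ^ 4 := by rw [← h5]; ring
        _ ≤ (⌊W1⌋₊ : ℝ) ^ 4 := pow_le_pow_left₀ (by positivity) h1 4
    exact_mod_cast h6
  · -- the upper bound
    have h1 : (⌊W1⌋₊ : ℝ) ≤ 7 * (M : ℝ) ^ 2 := by
      have := Nat.floor_le hW10
      nlinarith
    exact_mod_cast h1
  · have h1 := Nat.floor_le hW10
    have h2 : 3 * 10 ^ 30 * S * l ^ 3 = 3 * W1 := by rw [hWd]; ring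
    linarith

end Pool.Agent.Lib.MP_6b2d39_agVw
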