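import Pool.Agent.Lib.MP_6b2d39_agVw.WinW
import Pool.Agent.Lib.MP_6b2d39_agVw.NumW
import Pool.Agent.Lib.MP_6b2d39_agVn.NineV
import Pool.Agent.Lib.MP_6b2d39_agHal.Ten

/-!
The window for reduced systems with nine arbitrary multiplicities.

PROOF. `exists_enum` for `S`, `exists_coord`: `e = dg a`, `n (τ i) = mu a i`, `pr_eq`: `A = pr a a`. `3 e - ∑_S n i = sg a`,
`e - n (τ 0) = gr a 1 ≥ e - n i` is the smallest of the numbers `e - n i`. If all `a i < 400 M` for `i ≠ 9` then `sg a < 12000 M`; if all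
`a i < 400 M` for `i ≠ 1` then `e - n (τ 0) = a 0 + a 2 + 2 (a 3 + … + a 9) < 6800 M`; so `hcase` holds (`C ≥ 12000`). If the window
`W0 = C (…) ≥ 15 M ^ 2`: `window_ten` (`Hal/Ten.lean`, at most nine `n i > M`), otherwise `num_w`, `win_w` (`hv`: `W ≤ W0 ≤ |vd|`).
-/

open Polynomial

set_option autoImplicit false

namespace Pool.Agent.Lib.MP_6b2d39_agVw

open Pool.Agent.Lib.MP_6b2d39_ag Pool.Agent.Lib.MP_6b2d39_agHal Pool.Agent.Lib.MP_6b2d39_agVn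
  Pool.Agent.Lib.MP_6b2d39_agUn Pool.Agent.Lib.MP_6b2d39_agCr

private theorem nineW_pos {a : Fin 10 → ℕ} {M : ℕ} (hM : 1 ≤ M)
    (hc : (∃ i, i ≠ 1 ∧ i ≠ 9 ∧ 400 * M ≤ a i) ∨ (400 * M ≤ a 1 ∧ 400 * M ≤ a 9)) :
    1 ≤ pr a a := by
  rw [Nat.one_le_iff_ne_zero]
  intro h0
  unfold pr at h0
  have hz : ∀ j, a j * gr a j = 0 := fun j => (Finset.sum_eq_zero_iff.1 h0) j (Finset.mem_univ j)
  have hz' : ∀ j, 400 * M ≤ a j → gr a j = 0 := by
    intro j hj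
    rcases Nat.mul_eq_zero.1 (hz j) with h | h
    · omega
    · exact h
  rcases hc with ⟨i, hi1, hi9, hi⟩ | ⟨h1, h9⟩
  · have h2 := hz' i hi
    fin_cases i <;> simp [gr] at h2 hi hi1 hi9 <;> omega
  · have h2 := hz' 1 h1
    simp [gr] at h2
    omega

theorem nine_w : ∃ C : ℝ, 12000 ≤ C ∧ ∀ (h e M A : ℕ) (n : Fin h → ℕ) (S : Finset (Fin h)),
    3 ≤ h → Reduced e n → 1 ≤ M → S.card = 9 → (∀ j, j ∉ S → n j ≤ M) →
    e ^ 2 = ∑ i ∈ S, n i ^ 2 + A →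
    C * M + ((∑ i ∈ S, n i : ℕ) : ℝ) ≤ 3 * e → (∀ i ∈ S, C * M + n i ≤ e) →
    C * ((M : ℝ) ^ 6 / (A : ℝ) ^ 2 + M + ((A : ℝ) / M) ^ (3 / 4 : ℝ)) *
      Real.log (M + 2) ^ 3 ≤ |((vd e n : ℤ) : ℝ)| →
    General (fun P => (Module.finrank ℂ (curves e n P) : ℤ) = max (vd e n) 0) := by
  classical
  obtain ⟨C1, hC1, hnum⟩ := num_w
  refine ⟨C1 + 12000, by linarith, ?_⟩
  intro h e M A n S hh hred hM hS hSM hA hdeg3 hdeg1 hv
  have hM1 : (1 : ℝ) ≤ M := by exact_mod_cast hM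
  obtain ⟨τ, hτ, hτS⟩ := exists_enum n hS
  have hsumS : ∀ f : Fin h → ℕ, ∑ i ∈ S, f i = ∑ i, f (τ i) := by
    intro f
    rw [← hτS, Finset.sum_map]
  have hr : n (τ 0) + n (τ 1) + n (τ 2) ≤ e := by
    have h1 := hred ((Fin.castLEEmb (by norm_num : 3 ≤ 9)).trans τ)
    rw [Fin.sum_univ_three] at h1
    exact h1
  obtain ⟨a, hea, hma⟩ := exists_coord (m := fun i => n (τ i)) hτ hr
  have hmi : ∀ i, n (τ i) = mu a i := fun i => congrFun hma i
  have hA' : A = pr a a := by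
    have h1 : ∑ i ∈ S, n i ^ 2 = ∑ i, mu a i * mu a i := by
      rw [hsumS (fun i => n i ^ 2)]
      refine Finset.sum_congr rfl fun i _ => ?_
      rw [hmi i]
      ring
    have h2 := pr_eq a a
    rw [h1, hea, pow_two, h2] at hA
    omega
  have hdeg : 3 * e = ∑ i ∈ S, n i + sg a := by
    have h1 := om_deg a
    rw [← hea] at h1
    rw [h1, hsumS (fun i => n i), Finset.sum_congr rfl fun i _ => hmi i]
  -- `12000 M ≤ sg a`
  have hsg : 12000 * M ≤ sg a := by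
    have h1 : ((3 * e : ℕ) : ℝ) = ((∑ i ∈ S, n i : ℕ) : ℝ) + (sg a : ℝ) := by
      rw [hdeg]
      push_cast
      ring
    push_cast at h1 hdeg3
    have h2 : (12000 : ℝ) * M ≤ sg a := by nlinarith
    exact_mod_cast h2
  have hg1 : 12000 * M + n (τ 0) ≤ e := by
    have h0 : τ 0 ∈ S := by
      rw [← hτS]
      exact Finset.mem_map_of_mem τ (Finset.mem_univ 0)
    have h1 := hdeg1 _ h0
    have h2 : ((12000 * M + n (τ 0) : ℕ) : ℝ) ≤ e := by
      push_cast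
      nlinarith
    exact_mod_cast h2
  have hcase : (∃ i, i ≠ 1 ∧ i ≠ 9 ∧ 400 * M ≤ a i) ∨ (400 * M ≤ a 1 ∧ 400 * M ≤ a 9) := by
    by_contra hcon
    obtain ⟨hc1, hc2⟩ := not_or.1 hcon
    have hlt : ∀ i, i ≠ 1 → i ≠ 9 → a i < 400 * M := by
      intro i h1 h9
      by_contra h2
      exact hc1 ⟨i, h1, h9, not_lt.1 h2⟩
    have k0 := hlt 0 (by decide) (by decide)
    have k2 := hlt 2 (by decide) (by decide)
    have k3 := hlt 3 (by decide) (by decide)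
    have k4 := hlt 4 (by decide) (by decide)
    have k5 := hlt 5 (by decide) (by decide)
    have k6 := hlt 6 (by decide) (by decide)
    have k7 := hlt 7 (by decide) (by decide)
    have k8 := hlt 8 (by decide) (by decide)
    rw [hmi 0, hea] at hg1
    simp only [dg, mu, sg, Matrix.cons_val_zero] at hg1 hsg
    by_cases h1 : 400 * M ≤ a 1
    · have h9 : ¬ 400 * M ≤ a 9 := fun h9 => hc2 ⟨h1, h9⟩
      omega
    · omega
  have hA1 : 1 ≤ A := by
    rw [hA']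
    exact nineW_pos hM hcase
  have hS0 : 0 ≤ ((M : ℝ) ^ 6 / (A : ℝ) ^ 2 + M + ((A : ℝ) / M) ^ (3 / 4 : ℝ)) *
      Real.log (M + 2) ^ 3 := by
    have hl : 0 ≤ Real.log ((M : ℝ) + 2) := Real.log_nonneg (by linarith)
    have h1 : 0 ≤ ((A : ℝ) / M) ^ (3 / 4 : ℝ) := Real.rpow_nonneg (by positivity) _
    positivity
  have hv1 : C1 * ((M : ℝ) ^ 6 / (A : ℝ) ^ 2 + M + ((A : ℝ) / M) ^ (3 / 4 : ℝ)) *
      Real.log (M + 2) ^ 3 ≤ |((vd e n : ℤ) : ℝ)| := by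
    refine le_trans ?_ hv
    rw [mul_assoc, mul_assoc]
    exact mul_le_mul_of_nonneg_right (by linarith) hS0
  by_cases hbig : C1 * ((M : ℝ) ^ 6 / (A : ℝ) ^ 2 + M + ((A : ℝ) / M) ^ (3 / 4 : ℝ)) *
      Real.log (M + 2) ^ 3 < 15 * (M : ℝ) ^ 2
  · obtain ⟨X, W, w1, w2, w3, w4, w5, w6, w7⟩ := hnum M A hM hA1 hbig
    rw [hA'] at w2 w3 w5
    refine win_w (M := M) (X := X) (W := W) τ hea hmi ?_ ⟨hM, by omega, hcase, w1, w2, w3, w4, w5, w6⟩
      ?_
    · rw [hτS]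
      exact hSM
    · have h1 : (W : ℝ) ≤ |((vd e n : ℤ) : ℝ)| := le_trans w7 hv1
      have h2 : ((W : ℤ) : ℝ) ≤ ((|vd e n| : ℤ) : ℝ) := by
        push_cast
        exact h1
      exact_mod_cast h2
  · have h15 : 15 * (M : ℝ) ^ 2 ≤ |((vd e n : ℤ) : ℝ)| := le_trans (not_lt.1 hbig) hv1
    have hcard : (Finset.univ.filter (fun i => M < n i)).card ≤ 9 := by
      rw [← hS]
      refine Finset.card_le_card ?_
      intro i hi
      by_contra hcon
      exact absurd (hSM i hcon) (not_le.2 (Finset.mem_filter.1 hi).2)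
    refine window_ten hh hred hM hcard ?_
    have h16 : 15 * (M : ℤ) ^ 2 ≤ |vd e n| := by
      have h2 : ((15 * (M : ℤ) ^ 2 : ℤ) : ℝ) ≤ ((|vd e n| : ℤ) : ℝ) := by
        push_cast
        exact h15
      exact_mod_cast h2
    rcases le_total 0 (vd e n) with h0 | h0
    · right
      rw [abs_of_nonneg h0] at h16
      nlinarith [sq_nonneg (M : ℤ)]
    · left
      rw [abs_of_nonpos h0] at h16
      linarith

end Pool.Agent.Lib.MP_6b2d39_agVw
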