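import Pool.Agent.Lib.MP_6b2d39_agVw.SlopeW
import Pool.Agent.Lib.MP_6b2d39_agUn.BaseM

/-!
The rows of the system `a` with respect to the curve `G`, for the arrangement theorem of U.

PROOF (compare `Cur.rows` in `Vn/RowsV.lean`, same bookkeeping). `f b = finrank (quo G b W)`, `r b = f b - f (b + 1)`. For
`b ≤ 3 M + 1`: `2 f b = pr a_b a_b + sg a_b + 2` with `a_b = a' + (3 M + 1 - b) • d` (`Cur.finrank_quo`); so for `b ≤ 3 M`:
`2 r b = 2 pr a_b d - pr d d + sg d`, in particular `r 0 = z` and `r c - r (c + 1) = pr d d` for `c < 3 M`; `r b ≥ 1` for `b ≤ 3 M`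
(`2 r b ≥ pr d d + sg d`). `slope_w` gives `r b - r (b + 1) ≥ pr d d / 2` as long as `r (b + 1) ≥ 1`, so `r` decreases strictly until it is
zero; `T` = the first zero, `f T = 0`, `∑_{b < T} r b = f 0 ≥ pr a a / 2 ≥ 32 M z`.
-/

open Polynomial

set_option autoImplicit false

namespace Pool.Agent.Lib.MP_6b2d39_agVw

open Pool.Agent.Lib.MP_6b2d39_ag Pool.Agent.Lib.MP_6b2d39_agHal Pool.Agent.Lib.MP_6b2d39_agVn
  Pool.Agent.Lib.MP_6b2d39_agUn

variable {d : Fin 10 → ℕ} {t : Fin 9 → ℂ} {w : ℂ} {G : ℂ[X][X]}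

private theorem rowsw_sum {f : ℕ → ℕ} (hmono : ∀ b, f (b + 1) ≤ f b) (n : ℕ) :
    ∑ b ∈ Finset.range n, (f b - f (b + 1)) + f n = f 0 := by
  induction n with
  | zero => simp
  | succ n ih =>
    rw [Finset.sum_range_succ]
    have := hmono n
    omega

private theorem rowsw_abs {M z Q P0 P1 S0 S : ℕ} {f : ℕ → ℕ}
    (hmono : ∀ b, f (b + 1) ≤ f b)
    (h1 : ∀ b k, b + k = 3 * M + 1 →
      2 * f b = P0 + 2 * (k * P1) + k * (k * Q) + (S0 + k * S) + 2)
    (hz : 2 * z + Q = 2 * (P1 + (3 * M + 1) * Q) + S) (hQ : 4 ≤ Q + S)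
    (hs : ∀ b, f (b + 2) < f (b + 1) → Q + 4 * f (b + 1) ≤ 2 * f b + 2 * f (b + 2))
    (h0 : ∃ B, f B = 0) (hbig : 32 * M * z ≤ f 0) :
    ∃ T : ℕ, RwA M z Q T (fun b => ((f b - f (b + 1) : ℕ) : ℤ)) ∧ f T = 0 := by
  classical
  have hr : ∀ b k, b + k = 3 * M → 2 * f b = 2 * f (b + 1) + 2 * P1 + (2 * k + 1) * Q + S := by
    intro b k hbk
    have e1 := h1 b (k + 1) (by omega)
    have e2 := h1 (b + 1) k (by omega)
    rw [e1, e2]
    ring
  obtain ⟨B, hB⟩ := h0
  have hex : ∃ b, f b = f (b + 1) := ⟨B, by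
    have := hmono B
    omega⟩
  obtain ⟨T, hT, hTmin⟩ : ∃ T, f T = f (T + 1) ∧ ∀ b < T, f (b + 1) < f b := by
    refine ⟨Nat.find hex, Nat.find_spec hex, fun b hb => ?_⟩
    have h2 := Nat.find_min hex hb
    have h3 := hmono b
    omega
  have hconst : ∀ n, f (T + n) = f (T + n + 1) := by
    intro n
    induction n with
    | zero => exact hT
    | succ n ih =>
      by_contra hne
      have h2 := hmono (T + n + 1)
      have h3 : f (T + n + 2) < f (T + n + 1) := by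
        have h4 : f (T + n + 1) ≠ f (T + n + 1 + 1) := hne
        have h5 : T + n + 1 + 1 = T + n + 2 := by ring
        rw [h5] at h4 h2
        omega
      have h6 := hs (T + n) h3
      omega
  have hconst' : ∀ n, f (T + n) = f T := by
    intro n
    induction n with
    | zero => rfl
    | succ n ih =>
      have h2 := hconst n
      have h3 : T + (n + 1) = T + n + 1 := by ring
      rw [h3, ← h2, ih]
  have hanti : ∀ n, f (B + n) ≤ f B := by
    intro n
    induction n with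
    | zero => exact le_rfl
    | succ n ih =>
      have h2 := hmono (B + n)
      have h3 : B + (n + 1) = B + n + 1 := by ring
      rw [h3]
      omega
  have hfT : f T = 0 := by
    have h2 := hconst' B
    have h3 := hanti T
    rw [add_comm B T] at h3
    omega
  have hr0 := hr 0 (3 * M) (by omega)
  have hT1 : 1 ≤ T := by
    by_contra hcon
    have hT0 : T = 0 := by omega
    rw [hT0] at hT
    have h3 : (2 * (3 * M) + 1) * Q = 6 * (M * Q) + Q := by ring
    rw [h3] at hr0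
    have h4 : f (0 + 1) = f 0 := hT.symm
    rw [h4] at hr0
    omega
  refine ⟨T, ⟨?_, ?_, ?_, ?_, hT1, ?_⟩, hfT⟩
  · show ((f 0 - f (0 + 1) : ℕ) : ℤ) = z
    have h3 : (2 * (3 * M) + 1) * Q = 6 * (M * Q) + Q := by ring
    have h4 : 2 * (P1 + (3 * M + 1) * Q) = 2 * P1 + 6 * (M * Q) + 2 * Q := by ring
    rw [h3] at hr0
    rw [h4] at hz
    have h5 : f 0 - f (0 + 1) = z := by omega
    rw [h5]
  · intro c hc
    show ((f c - f (c + 1) : ℕ) : ℤ) - ((f (c + 1) - f (c + 1 + 1) : ℕ) : ℤ) = Q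
    obtain ⟨k, hk⟩ : ∃ k, c + (k + 1) = 3 * M := ⟨3 * M - c - 1, by omega⟩
    have e1 := hr c (k + 1) hk
    have e2 := hr (c + 1) k (by omega)
    have h3 : (2 * (k + 1) + 1) * Q = (2 * k + 1) * Q + 2 * Q := by ring
    rw [h3] at e1
    generalize (2 * k + 1) * Q = u at e1 e2
    have h4 := hmono c
    have h5 := hmono (c + 1)
    omega
  · intro c hc
    show (Q : ℤ) ≤ 2 * (((f c - f (c + 1) : ℕ) : ℤ) - ((f (c + 1) - f (c + 1 + 1) : ℕ) : ℤ))
    have h2 : f (c + 2) < f (c + 1) := hTmin (c + 1) hc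
    have h3 := hs c h2
    have h4 := hmono c
    have h5 : f (c + 1 + 1) = f (c + 2) := rfl
    rw [h5]
    omega
  · show 1 ≤ ((f (T - 1) - f (T - 1 + 1) : ℕ) : ℤ)
    have h2 := hTmin (T - 1) (by omega)
    omega
  · show ((32 * M * z : ℤ)) ≤ ∑ c ∈ Finset.range T, ((f c - f (c + 1) : ℕ) : ℤ)
    have h2 := rowsw_sum hmono T
    rw [← Nat.cast_sum]
    have h3 : 32 * M * z ≤ ∑ c ∈ Finset.range T, (f c - f (c + 1)) := by omega
    exact_mod_cast h3

theorem rows_w (h : Cur d t w G) (h2 : 2 ≤ sg d) {M z : ℕ} (hM : 1 ≤ M) {a a' : Fin 10 → ℕ}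
    (ha : a = a' + (3 * M + 1) • d) (hs : 1 ≤ sg a')
    (hz : 2 * z + pr d d = 2 * pr a d + sg d) (hbig : 64 * M * z ≤ pr a a) :
    ∃ (T : ℕ) (r : ℕ → ℕ), RwA M z (pr d d) T (fun b => (r b : ℤ)) ∧
      (∀ b < T, Module.finrank ℂ (quo G b (Sp (dg a + 1) (fun i => gam (t i)) (mu a))) ≤
        r b + Module.finrank ℂ (quo G (b + 1) (Sp (dg a + 1) (fun i => gam (t i)) (mu a)))) ∧
      (∀ F : ℂ[X][X], G ^ T * F ∈ Sp (dg a + 1) (fun i => gam (t i)) (mu a) → F = 0) ∧
      ∑ b ∈ Finset.range T, r b + ∑ i, (mu a i + 1).choose 2 = (dg a + 2).choose 2 := by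
  have hG : G ≠ 0 := h.irr.ne_zero
  have hfin : ∀ b, FiniteDimensional ℂ
      (quo G b (Sp (dg a + 1) (fun i => gam (t i)) (mu a))) := fun b => quo_finite hG b _
  obtain ⟨f, hf⟩ : ∃ f : ℕ → ℕ, ∀ b, f b =
      Module.finrank ℂ (quo G b (Sp (dg a + 1) (fun i => gam (t i)) (mu a))) :=
    ⟨fun b => Module.finrank ℂ (quo G b (Sp (dg a + 1) (fun i => gam (t i)) (mu a))),
      fun b => rfl⟩
  have hmono : ∀ b, f (b + 1) ≤ f b := by
    intro b
    have := hfin b
    rw [hf, hf, ← finrank_quo_mulF hG b]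
    exact Submodule.finrank_mono inf_le_left
  have hpr : pr a d = pr a' d + (3 * M + 1) * pr d d := by
    rw [ha, pr_add, pr_smul]
  have h1 : ∀ b k, b + k = 3 * M + 1 → 2 * f b = pr a' a' + 2 * (k * pr a' d) +
      k * (k * pr d d) + (sg a' + k * sg d) + 2 := by
    intro b k hbk
    have e1 : a = (a' + k • d) + b • d := by
      rw [ha, ← hbk, add_assoc, ← add_smul, add_comm k b]
    have e2 : 1 ≤ sg (a' + k • d) := by
      rw [sg_add]
      omega
    rw [hf, h.finrank_quo e1 e2, sg_add, sg_smul, pr_add, pr_smul, pr_symm a' (a' + k • d),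
      pr_symm d (a' + k • d), pr_add, pr_add, pr_smul, pr_smul, pr_symm d a']
    ring
  have hs' : ∀ b, f (b + 2) < f (b + 1) → pr d d + 4 * f (b + 1) ≤ 2 * f b + 2 * f (b + 2) := by
    intro b hb
    rw [hf, hf] at hb
    rw [hf, hf, hf]
    exact slope_w h h2 _ b _ hb
  have h0 : ∃ B, f B = 0 := by
    refine ⟨dg a + 1, ?_⟩
    rw [hf, h.quo_sp]
    have h3 : dg a + 1 - (dg a + 1) * dg d = 0 := by
      have h4 : 1 ≤ dg d := by
        have := h.deg
        omega
      have h5 : (dg a + 1) * 1 ≤ (dg a + 1) * dg d := Nat.mul_le_mul_left _ h4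
      omega
    rw [h3]
    have h6 : Sp 0 (fun i => gam (t i)) (fun i => mu a i - (dg a + 1) * mu d i) = ⊥ := by
      rw [eq_bot_iff]
      intro F hF
      rw [Submodule.mem_bot]
      exact InV_zero (mem_Sp.1 hF).1
    rw [h6, finrank_bot]
  have hsa : 1 ≤ sg a := by
    rw [ha, sg_add]
    omega
  have hf0 : 2 * f 0 = pr a a + sg a + 2 := by
    rw [hf]
    exact h.finrank_quo (by simp) hsa
  obtain ⟨T, hT, hfT⟩ := rowsw_abs (M := M) (z := z) hmono h1 (by rw [← hpr]; exact hz) h.dim hs'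
    h0 (by
      have h3 : 64 * M * z = 2 * (32 * M * z) := by ring
      omega)
  refine ⟨T, fun b => f b - f (b + 1), hT, ?_, ?_, ?_⟩
  · intro b _
    show _ ≤ f b - f (b + 1) + _
    rw [← hf, ← hf]
    have := hmono b
    omega
  · intro F hF
    have h3 : F ∈ quo G T (Sp (dg a + 1) (fun i => gam (t i)) (mu a)) := mem_quo.2 hF
    have h4 : quo G T (Sp (dg a + 1) (fun i => gam (t i)) (mu a)) = ⊥ := by
      have := hfin T
      rw [hf] at hfT
      exact Submodule.finrank_eq_zero.1 hfT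
    rw [h4] at h3
    exact (Submodule.mem_bot ℂ).1 h3
  · show ∑ b ∈ Finset.range T, (f b - f (b + 1)) + _ = _
    have h3 := rowsw_sum hmono T
    have h4 := om_chi a
    omega

end Pool.Agent.Lib.MP_6b2d39_agVw
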