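import Pool.Agent.Lib.MP_6b2d39_agVn.Strict
import Pool.Agent.Lib.MP_6b2d39_agVw.HopfG

/-!
The slopes of the rows are at least half of the self-intersection of the curve.

PROOF. `hopf_gen` with `B = Sp (dg d + 1) (mu d)`, `V = quo G (b + 1) W`, `U = quo G b W` (`Cur.mul_quo`). `2 finrank B = pr d d + sg d + 2`
(`Cur.finrank_quo` with `a = a' = d`, `b = 0`; `quo G 0 B = B`), `finrank (B ⊓ mulF G) = finrank (quo G 1 B) = 1` (`finrank_quo_mulF`,
`Cur.quo_sp`: polynomials of degree `0`; this computation occurs in `Vn/Strict.lean`), `finrank (V ⊓ mulF G) = f (b + 2)`,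
`finrank (U ⊓ mulF G) = f (b + 1)` (`finrank_quo_mulF`). So `f b - 2 f (b + 1) + f (b + 2) ≥ finrank B - 2 = (pr d d + sg d - 2) / 2`.
-/

open Polynomial

set_option autoImplicit false

namespace Pool.Agent.Lib.MP_6b2d39_agVw

open Pool.Agent.Lib.MP_6b2d39_ag Pool.Agent.Lib.MP_6b2d39_agHal Pool.Agent.Lib.MP_6b2d39_agVn

variable {d : Fin 10 → ℕ} {t : Fin 9 → ℂ} {w : ℂ} {G : ℂ[X][X]}

/-- the polynomials of degree `0` -/
private theorem slopeW_const {ι : Type} (p : ι → ℂ × ℂ) (m : ι → ℕ) :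
    Module.finrank ℂ (Sp 1 p m) ≤ 1 := by
  have h0 : Sp 1 p m ≤ Submodule.span ℂ {(1 : ℂ[X][X])} := by
    intro F hF
    have hV : InV 1 F := hF.1
    refine Submodule.mem_span_singleton.2 ⟨(F.coeff 0).coeff 0, ?_⟩
    ext a b
    by_cases hab : a = 0 ∧ b = 0
    · obtain ⟨rfl, rfl⟩ := hab
      simp
    · rw [hV a b (by omega)]
      rw [coeff_smul, coeff_smul]
      by_cases ha : a = 0
      · subst ha
        have hb : b ≠ 0 := fun h => hab ⟨rfl, h⟩
        rw [coeff_one_zero, coeff_one, if_neg hb, smul_zero]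
      · rw [coeff_one, if_neg ha, coeff_zero, smul_zero]
  have h1 : FiniteDimensional ℂ (Submodule.span ℂ {(1 : ℂ[X][X])}) :=
    FiniteDimensional.span_singleton ℂ _
  refine (Submodule.finrank_mono h0).trans ?_
  exact (finrank_span_le_card _).trans (by simp)

theorem slope_w (h : Cur d t w G) (h2 : 2 ≤ sg d) (n b : ℕ) (m : Fin 9 → ℕ)
    (hb : Module.finrank ℂ (quo G (b + 2) (Sp n (fun i => gam (t i)) m)) <
      Module.finrank ℂ (quo G (b + 1) (Sp n (fun i => gam (t i)) m))) :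
    pr d d + 4 * Module.finrank ℂ (quo G (b + 1) (Sp n (fun i => gam (t i)) m)) ≤
      2 * Module.finrank ℂ (quo G b (Sp n (fun i => gam (t i)) m)) +
        2 * Module.finrank ℂ (quo G (b + 2) (Sp n (fun i => gam (t i)) m)) := by
  have hG := h.ne_zero
  have hd := h.dim
  -- the base
  have e0 : quo G 0 (Sp (dg d + 1) (fun i => gam (t i)) (mu d)) =
      Sp (dg d + 1) (fun i => gam (t i)) (mu d) := by
    ext H
    rw [mem_quo, pow_zero, one_mul]
  have e1 := h.finrank_quo (a := d) (a' := d) (b := 0) (by simp) h.pos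
  rw [e0] at e1
  have e2 := finrank_quo_mulF hG 0 (Sp (dg d + 1) (fun i => gam (t i)) (mu d))
  rw [e0, h.quo_sp] at e2
  have e3 : Module.finrank ℂ ↥(Sp (dg d + 1) (fun i => gam (t i)) (mu d) ⊓ mulF G) ≤ 1 := by
    rw [e2]
    have e4 : dg d + 1 - (0 + 1) * dg d = 1 := by
      rw [zero_add, one_mul]
      omega
    rw [e4]
    exact slopeW_const _ _
  have fV : FiniteDimensional ℂ (quo G (b + 1) (Sp n (fun i => gam (t i)) m)) :=
    quo_finite hG _ _
  have fU : FiniteDimensional ℂ (quo G b (Sp n (fun i => gam (t i)) m)) :=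
    quo_finite hG _ _
  have e5 : Module.finrank ℂ ↥(quo G (b + 1) (Sp n (fun i => gam (t i)) m) ⊓ mulF G) =
      Module.finrank ℂ (quo G (b + 2) (Sp n (fun i => gam (t i)) m)) :=
    finrank_quo_mulF hG (b + 1) (Sp n (fun i => gam (t i)) m)
  have e6 := finrank_quo_mulF hG b (Sp n (fun i => gam (t i)) m)
  have key := hopf_gen h.irr h.natDegree h.dep
    (B := Sp (dg d + 1) (fun i => gam (t i)) (mu d))
    (V := quo G (b + 1) (Sp n (fun i => gam (t i)) m))
    (U := quo G b (Sp n (fun i => gam (t i)) m))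
    (fun F hF H hH => h.mul_quo hF hH) (by omega) (by
      rw [e5]
      exact hb)
  rw [e5, e6] at key
  omega

end Pool.Agent.Lib.MP_6b2d39_agVw
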