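import Pool.Agent.Lib.MP_6b2d39_agVw.CertW
import Pool.Agent.Lib.MP_6b2d39_agVn.FinV
import Pool.Agent.Lib.MP_6b2d39_agUn.AppU
import Pool.Agent.Lib.MP_6b2d39_agUn.Lower
import Pool.Agent.Lib.MP_6b2d39_agHw.Fin

/-!
The window for nine arbitrary multiplicities.

PROOF. Case `vd e n ≥ W`: `upper_u` gives `k` with `W ≤ vd e n' ≤ W + M ^ 2`, `n' = Fin.append n (fun _ : Fin k => M)`; by `app_u` it is
enough to treat `n'`; `τ' = τ.trans (Fin.castAddEmb k)`; `u = vd e n'` simple points: index type `Fin (h + k) ⊕ Fin u`, `J` = the light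
points, `Z` = the simple points, `cert_pos`; `exists_configT` and `general_nonspecial_of_le` as in `finish` (`Vn/FinV.lean`).
Case `vd e n ≤ -W`: lower the multiplicities outside of the nine points one by one (as `lower_aux` in `Un/Lower.lean`; if all are zero then
`vd = (dg a + 2).choose 2 - ∑ (mu a i + 1).choose 2 ≥ 1`, by `om_chi`) to get `n'' ≤ n`, equal to `n` on the nine points, with
`-(W + M) ≤ vd e n'' ≤ -W`; `cert_neg` for `n''` (`u = 0`): the dimension for `n''` is zero at some `P₀`, so it is zero for `n`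
(`curves e n P ≤ curves e n'' P`), `general_nonspecial_of_le`.
-/

open Polynomial

set_option autoImplicit false

namespace Pool.Agent.Lib.MP_6b2d39_agVw

open Pool.Agent.Lib.MP_6b2d39_ag Pool.Agent.Lib.MP_6b2d39_agHal Pool.Agent.Lib.MP_6b2d39_agVn
  Pool.Agent.Lib.MP_6b2d39_agUn Pool.Agent.Lib.MP_6b2d39_agCr

private theorem ww_split {h : ℕ} (S : Finset (Fin h)) (f : Fin h → ℕ) :
    ∑ l, f l = ∑ l ∈ S, f l + ∑ l ∈ Finset.univ.filter (fun l => l ∉ S), f l := by
  rw [← Finset.sum_filter_add_sum_filter_not Finset.univ (fun l => l ∈ S) f]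
  congr 1
  apply Finset.sum_congr _ (fun _ _ => rfl)
  ext l
  simp

private theorem ww_all {h u : ℕ} (τ : Fin 9 ↪ Fin h) :
    ((Finset.univ.filter (fun l : Fin h => l ∉ Finset.univ.map τ)).map
      Function.Embedding.inl) ∪ (Finset.univ : Finset (Fin u)).map Function.Embedding.inr =
      (Finset.univ.filter (fun i : Fin h ⊕ Fin u => ∀ l, i ≠ Sum.inl (τ l))) := by
  ext i
  rw [Finset.mem_union, Finset.mem_map, Finset.mem_map, Finset.mem_filter]
  constructor
  · rintro (⟨l, hl, rfl⟩ | ⟨l, -, rfl⟩)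
    · refine ⟨Finset.mem_univ _, fun l' heq => ?_⟩
      rw [Finset.mem_filter] at hl
      apply hl.2
      have h1 : l = τ l' := Sum.inl_injective heq
      rw [h1]
      exact Finset.mem_map_of_mem τ (Finset.mem_univ l')
    · refine ⟨Finset.mem_univ _, fun l' heq => ?_⟩
      simp at heq
  · rintro ⟨-, hi⟩
    rcases i with l | l
    · left
      refine ⟨l, ?_, rfl⟩
      rw [Finset.mem_filter]
      refine ⟨Finset.mem_univ _, fun hl => ?_⟩
      rw [Finset.mem_map] at hl
      obtain ⟨l', -, h1⟩ := hl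
      exact hi l' (by rw [h1])
    · right
      exact ⟨l, Finset.mem_univ _, rfl⟩

private theorem ww_vd {h : ℕ} (e : ℕ) (n : Fin h → ℕ) (τ : Fin 9 ↪ Fin h) :
    vd e n = (((e + 2).choose 2 : ℕ) : ℤ) - ((∑ i, (n (τ i) + 1).choose 2 : ℕ) : ℤ) -
      ((∑ l ∈ Finset.univ.filter (fun l => l ∉ Finset.univ.map τ),
        (n l + 1).choose 2 : ℕ) : ℤ) := by
  have h2 := ww_split (Finset.univ.map τ) (fun l => (n l + 1).choose 2)
  have h4 : ∑ l ∈ Finset.univ.map τ, (n l + 1).choose 2 = ∑ i, (n (τ i) + 1).choose 2 := by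
    rw [Finset.sum_map]
  have h3 : (∑ i, ((n i + 1).choose 2 : ℤ)) = ((∑ l, (n l + 1).choose 2 : ℕ) : ℤ) := by
    push_cast
    rfl
  unfold vd
  rw [h3, h2, h4]
  push_cast
  ring

private theorem ww_mass {h : ℕ} (u : ℕ) (n : Fin h → ℕ) (A : Finset (Fin h)) :
    Pool.Agent.Lib.MP_6b2d39_agWin.mass (Sum.elim n (fun _ => 1) : Fin h ⊕ Fin u → ℕ) (A.map Function.Embedding.inl) =
      ∑ l ∈ A, (n l + 1).choose 2 := by
  unfold Pool.Agent.Lib.MP_6b2d39_agWin.mass
  rw [Finset.sum_map]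
  rfl

private theorem ww_posb {h e M X W : ℕ} {n : Fin h → ℕ} (τ : Fin 9 ↪ Fin h) {a : Fin 10 → ℕ}
    (he : e = dg a) (hτ : ∀ i, n (τ i) = mu a i) (hl : ∀ j, j ∉ Finset.univ.map τ → n j ≤ M)
    (hN : NwW M a X W) (h1 : (W : ℤ) ≤ vd e n) (h2 : vd e n ≤ W + M ^ 2) :
    General (fun P => (Module.finrank ℂ (curves e n P) : ℤ) = max (vd e n) 0) := by
  have hv0 : 0 ≤ vd e n := by
    have h3 : (0 : ℤ) ≤ W := by positivity
    linarith
  obtain ⟨u, hu⟩ : ∃ u : ℕ, (u : ℤ) = vd e n := ⟨(vd e n).toNat, Int.toNat_of_nonneg hv0⟩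
  have hτ' : (fun i => n (τ i)) = mu a := funext hτ
  obtain ⟨A, hA⟩ : ∃ A : Finset (Fin h),
    A = Finset.univ.filter (fun l : Fin h => l ∉ Finset.univ.map τ) := ⟨_, rfl⟩
  have hvd := ww_vd e n τ
  rw [← hA] at hvd
  have hsum : ∑ i, (n (τ i) + 1).choose 2 = ∑ i, (mu a i + 1).choose 2 :=
    Finset.sum_congr rfl fun i _ => by rw [hτ i]
  rw [hsum] at hvd
  have hdisj : Disjoint (A.map (Function.Embedding.inl : Fin h ↪ Fin h ⊕ Fin u))
      ((Finset.univ : Finset (Fin u)).map Function.Embedding.inr) := by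
    rw [Finset.disjoint_left]
    intro i hi hi'
    rw [Finset.mem_map] at hi hi'
    obtain ⟨a, -, rfl⟩ := hi
    obtain ⟨b, -, hb⟩ := hi'
    simp at hb
  have hcard : ((Finset.univ : Finset (Fin u)).map
      (Function.Embedding.inr : Fin u ↪ Fin h ⊕ Fin u)).card = u := by
    rw [Finset.card_map, Finset.card_univ, Fintype.card_fin]
  have hJ : ∀ j ∈ A.map (Function.Embedding.inl : Fin h ↪ Fin h ⊕ Fin u),
      (Sum.elim n (fun _ => 1) : Fin h ⊕ Fin u → ℕ) j ≤ M := by
    intro j hj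
    rw [Finset.mem_map] at hj
    obtain ⟨l, hl', rfl⟩ := hj
    rw [hA, Finset.mem_filter] at hl'
    exact hl l hl'.2
  have hZ : ∀ j ∈ (Finset.univ : Finset (Fin u)).map
      (Function.Embedding.inr : Fin u ↪ Fin h ⊕ Fin u),
      (Sum.elim n (fun _ => 1) : Fin h ⊕ Fin u → ℕ) j = 1 := by
    intro j hj
    rw [Finset.mem_map] at hj
    obtain ⟨l, -, rfl⟩ := hj
    rfl
  have hmass := ww_mass u n A
  obtain ⟨p, x, y, hE⟩ := cert_pos hN hdisj hJ hZ
    (by rw [hmass, hcard, ← he]; zify; rw [hu, hvd]; push_cast; ring)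
    (by rw [hcard]; zify; rw [hu]; exact h1)
    (by rw [hcard]; zify; rw [hu]; exact h2)
  rw [hA, ww_all τ, ← he, ← hτ'] at hE
  obtain ⟨P₀, hP₀⟩ := exists_configT τ p x y hE
  apply general_nonspecial_of_le P₀
  rw [max_eq_left hv0, ← hu]
  exact_mod_cast hP₀

private theorem ww_negb {h e M X W : ℕ} {n : Fin h → ℕ} (τ : Fin 9 ↪ Fin h) {a : Fin 10 → ℕ}
    (he : e = dg a) (hτ : ∀ i, n (τ i) = mu a i) (hl : ∀ j, j ∉ Finset.univ.map τ → n j ≤ M)
    (hN : NwW M a X W) (h1 : vd e n ≤ -(W : ℤ)) (h2 : -((W : ℤ) + M) ≤ vd e n) :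
    ∃ P₀ : Fin h → Fin 3 → ℂ, Module.finrank ℂ (curves e n P₀) ≤ 0 := by
  have hτ' : (fun i => n (τ i)) = mu a := funext hτ
  obtain ⟨A, hA⟩ : ∃ A : Finset (Fin h),
    A = Finset.univ.filter (fun l : Fin h => l ∉ Finset.univ.map τ) := ⟨_, rfl⟩
  have hvd := ww_vd e n τ
  rw [← hA] at hvd
  have hsum : ∑ i, (n (τ i) + 1).choose 2 = ∑ i, (mu a i + 1).choose 2 :=
    Finset.sum_congr rfl fun i _ => by rw [hτ i]
  rw [hsum] at hvd
  have hJ : ∀ j ∈ A.map (Function.Embedding.inl : Fin h ↪ Fin h ⊕ Fin 0),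
      (Sum.elim n (fun _ => 1) : Fin h ⊕ Fin 0 → ℕ) j ≤ M := by
    intro j hj
    rw [Finset.mem_map] at hj
    obtain ⟨l, hl', rfl⟩ := hj
    rw [hA, Finset.mem_filter] at hl'
    exact hl l hl'.2
  have hmass := ww_mass 0 n A
  rw [hvd] at h1 h2
  obtain ⟨p, x, y, hE⟩ := cert_neg hN hJ
    (by rw [hmass, ← he]; zify; push_cast at h1; linarith)
    (by rw [hmass, ← he]; zify; push_cast at h2; linarith)
  have hu : A.map (Function.Embedding.inl : Fin h ↪ Fin h ⊕ Fin 0) =
      (A.map Function.Embedding.inl) ∪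
        (Finset.univ : Finset (Fin 0)).map Function.Embedding.inr := by
    rw [Finset.univ_eq_empty, Finset.map_empty, Finset.union_empty]
  rw [hu, hA, ww_all τ, ← he, ← hτ'] at hE
  exact exists_configT τ p x y hE

private theorem ww_upd {n d : ℕ} (μ : Fin n → ℕ) (i : Fin n) (hi : μ i ≠ 0) :
    vd d (Function.update μ i (μ i - 1)) = vd d μ + μ i := by
  unfold vd
  have h1 : ∑ j, ((μ j + 1).choose 2 : ℤ) =
      ((μ i + 1).choose 2 : ℤ) + ∑ j ∈ Finset.univ.erase i, ((μ j + 1).choose 2 : ℤ) :=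
    (Finset.add_sum_erase _ _ (Finset.mem_univ i)).symm
  have h2 : ∑ j, ((Function.update μ i (μ i - 1) j + 1).choose 2 : ℤ) =
      ((Function.update μ i (μ i - 1) i + 1).choose 2 : ℤ) +
        ∑ j ∈ Finset.univ.erase i, ((Function.update μ i (μ i - 1) j + 1).choose 2 : ℤ) :=
    (Finset.add_sum_erase _ _ (Finset.mem_univ i)).symm
  have h3 : ∑ j ∈ Finset.univ.erase i, ((Function.update μ i (μ i - 1) j + 1).choose 2 : ℤ) =
      ∑ j ∈ Finset.univ.erase i, ((μ j + 1).choose 2 : ℤ) := by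
    refine Finset.sum_congr rfl fun j hj => ?_
    rw [Function.update_of_ne (Finset.ne_of_mem_erase hj)]
  have h4 : ((μ i + 1).choose 2 : ℤ) = ((μ i - 1 + 1).choose 2 : ℤ) + μ i := by
    obtain ⟨a, ha⟩ := Nat.exists_eq_succ_of_ne_zero hi
    rw [ha]
    have h5 : (a.succ + 1).choose 2 = (a + 1).choose 1 + (a + 1).choose 2 :=
      Nat.choose_succ_succ (a + 1) 1
    have h6 : a.succ - 1 = a := rfl
    rw [h5, h6, Nat.choose_one_right]
    push_cast
    ring
  rw [h1, h2, h3, Function.update_self, h4]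
  ring

private theorem ww_zero {h e : ℕ} {n : Fin h → ℕ} (τ : Fin 9 ↪ Fin h) {a : Fin 10 → ℕ}
    (he : e = dg a) (hτ : ∀ i, n (τ i) = mu a i) (h0 : ∀ j, j ∉ Finset.univ.map τ → n j = 0) :
    0 < vd e n := by
  have hvd := ww_vd e n τ
  have hsum : ∑ i, (n (τ i) + 1).choose 2 = ∑ i, (mu a i + 1).choose 2 :=
    Finset.sum_congr rfl fun i _ => by rw [hτ i]
  have h1 : ∑ l ∈ Finset.univ.filter (fun l => l ∉ Finset.univ.map τ),
      (n l + 1).choose 2 = 0 := by
    refine Finset.sum_eq_zero fun l hl => ?_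
    rw [Finset.mem_filter] at hl
    rw [h0 l hl.2]
    rfl
  have h2 := om_chi a
  rw [hvd, hsum, h1, he]
  omega

private theorem ww_lower {h e M W : ℕ} (τ : Fin 9 ↪ Fin h) {a : Fin 10 → ℕ} (he : e = dg a) :
    ∀ (s : ℕ) (n : Fin h → ℕ), ∑ i, n i = s → (∀ i, n (τ i) = mu a i) →
    (∀ j, j ∉ Finset.univ.map τ → n j ≤ M) → vd e n ≤ -(W : ℤ) →
    ∃ n' : Fin h → ℕ, (∀ i, n' i ≤ n i) ∧ (∀ i, n' (τ i) = mu a i) ∧
      vd e n' ≤ -(W : ℤ) ∧ -((W : ℤ) + M) ≤ vd e n' := by
  intro s
  induction s with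
  | zero =>
    intro n hs hτ _ hv
    have h0 : ∀ i, n i = 0 := fun i =>
      (Finset.sum_eq_zero_iff.1 hs) i (Finset.mem_univ i)
    have := ww_zero τ he hτ fun j _ => h0 j
    exfalso
    have hW : (0 : ℤ) ≤ W := by positivity
    linarith
  | succ s ih =>
    intro n hs hτ hl hv
    by_cases hge : -((W : ℤ) + M) ≤ vd e n
    · exact ⟨n, fun i => le_rfl, hτ, hv, hge⟩
    · have hex : ∃ i, i ∉ Finset.univ.map τ ∧ n i ≠ 0 := by
        by_contra hcon
        have h0 : ∀ i, i ∉ Finset.univ.map τ → n i = 0 := fun i hi => by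
          by_contra hi'
          exact hcon ⟨i, hi, hi'⟩
        have := ww_zero τ he hτ h0
        have hW : (0 : ℤ) ≤ W := by positivity
        linarith
      obtain ⟨i, hi0, hi⟩ := hex
      have hup : ∀ j, Function.update n i (n i - 1) j ≤ n j := by
        intro j
        by_cases hj : j = i
        · rw [hj, Function.update_self]
          omega
        · rw [Function.update_of_ne hj]
      have hsum : ∑ j, Function.update n i (n i - 1) j = s := by
        have h1 : ∑ j, n j = n i + ∑ j ∈ Finset.univ.erase i, n j :=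
          (Finset.add_sum_erase _ _ (Finset.mem_univ i)).symm
        have h2 : ∑ j, Function.update n i (n i - 1) j =
            Function.update n i (n i - 1) i +
              ∑ j ∈ Finset.univ.erase i, Function.update n i (n i - 1) j :=
          (Finset.add_sum_erase _ _ (Finset.mem_univ i)).symm
        have h3 : ∑ j ∈ Finset.univ.erase i, Function.update n i (n i - 1) j =
            ∑ j ∈ Finset.univ.erase i, n j := by
          refine Finset.sum_congr rfl fun j hj => ?_
          rw [Function.update_of_ne (Finset.ne_of_mem_erase hj)]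
        rw [h2, h3, Function.update_self]
        omega
      have hτ2 : ∀ j, Function.update n i (n i - 1) (τ j) = mu a j := by
        intro j
        have h1 : τ j ≠ i := by
          intro h2
          apply hi0
          rw [← h2]
          exact Finset.mem_map_of_mem τ (Finset.mem_univ j)
        rw [Function.update_of_ne h1, hτ j]
      have hv' : vd e (Function.update n i (n i - 1)) ≤ -(W : ℤ) := by
        rw [ww_upd n i hi]
        have h1 : (n i : ℤ) ≤ M := by exact_mod_cast hl i hi0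
        linarith
      obtain ⟨n', h1, h2, h3, h4⟩ := ih (Function.update n i (n i - 1)) hsum hτ2
        (fun j hj => (hup j).trans (hl j hj)) hv'
      exact ⟨n', fun j => (h1 j).trans (hup j), h2, h3, h4⟩

private theorem ww_mono {h e : ℕ} {n n' : Fin h → ℕ} (hn : ∀ i, n' i ≤ n i)
    (P : Fin h → Fin 3 → ℂ) : curves e n P ≤ curves e n' P := by
  unfold curves
  refine inf_le_inf le_rfl (le_iInf fun i => (iInf_le _ i).trans ?_)
  intro x hx
  exact Ideal.pow_le_pow_right (hn i) hx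

theorem win_w {h e M X W : ℕ} {n : Fin h → ℕ} (τ : Fin 9 ↪ Fin h) {a : Fin 10 → ℕ}
    (he : e = dg a) (hτ : ∀ i, n (τ i) = mu a i) (hl : ∀ j, j ∉ Finset.univ.map τ → n j ≤ M)
    (hN : NwW M a X W) (hv : (W : ℤ) ≤ |vd e n|) :
    General (fun P => (Module.finrank ℂ (curves e n P) : ℤ) = max (vd e n) 0) := by
  rcases le_or_gt 0 (vd e n) with h0 | h0
  · rw [abs_of_nonneg h0] at hv
    obtain ⟨k, hk1, hk2⟩ := upper_u hN.hM hv
    have hk0 : 0 ≤ vd e (Fin.append n (fun _ : Fin k => M)) := by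
      have h3 : (0 : ℤ) ≤ W := by positivity
      linarith
    refine app_u n hk0 ?_
    refine ww_posb (M := M) (X := X) (W := W) (a := a) (τ.trans (Fin.castAddEmb k)) he ?_ ?_ hN
      hk1 hk2
    · intro i
      change Fin.append n (fun _ : Fin k => M) (Fin.castAdd k (τ i)) = _
      rw [Fin.append_left, hτ i]
    · intro j
      induction j using Fin.addCases with
      | left j =>
        intro hj
        rw [Fin.append_left]
        apply hl
        intro hj2
        apply hj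
        rw [Finset.mem_map] at hj2 ⊢
        obtain ⟨i, -, hi⟩ := hj2
        refine ⟨i, Finset.mem_univ _, ?_⟩
        change Fin.castAdd k (τ i) = _
        rw [hi]
      | right j =>
        intro _
        rw [Fin.append_right]
  · have hW : vd e n ≤ -(W : ℤ) := by
      rw [abs_of_neg h0] at hv
      linarith
    obtain ⟨n', h1, h2, h3, h4⟩ := ww_lower (M := M) (W := W) τ he _ n rfl hτ hl hW
    obtain ⟨P₀, hP₀⟩ := ww_negb τ he h2 (fun j hj => (h1 j).trans (hl j hj)) hN h3 h4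
    apply general_nonspecial_of_le P₀
    have : Module.Finite ℂ (MvPolynomial.homogeneousSubmodule (Fin 3) ℂ e) :=
      Module.Finite.iff_fg.mpr (MvPolynomial.homogeneousSubmodule_fg (Fin 3) ℂ e)
    have : Module.Finite ℂ (curves e n' P₀) :=
      Submodule.finiteDimensional_of_le (inf_le_left : curves e n' P₀ ≤ _)
    have h5 := Submodule.finrank_mono (ww_mono h1 P₀ : curves e n P₀ ≤ curves e n' P₀)
    rw [max_eq_right h0.le]
    have h6 : Module.finrank ℂ (curves e n P₀) ≤ 0 := h5.trans hP₀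
    exact_mod_cast h6

end Pool.Agent.Lib.MP_6b2d39_agVw
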